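import Mathlib
import Pool.Agent.Q206.STS.Main

set_option autoImplicit false

/-!
# The minimum semidefinite rank of the incidence graph of a Steiner triple system

`IsSTS`, `incGraph`, `msr` and `Iso` are defined in `Pool/Agent/Q206/STS/Defs.lean`. `boseB n h`
(`n` odd, `2 h = 1` in `ZMod n`) is the Bose system on `ZMod n × Fin 3` with the blocks
`{(x, 0), (x, 1), (x, 2)}` and `{(x, i), (y, i), ((x + y) / 2, i + 1)}`, and `projB n` is the
projective system on the nonzero vectors of `𝔽₂ⁿ` with the blocks `{x, y, x + y}`.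
-/

namespace Pool.Agent.Results.MP_2ade00_co.BoseVersusProjective

open Pool.Agent.Q206.STS

/-- Sanity check: the blocks of the projective system. -/
theorem mem_projB {n : ℕ} (b : Finset (PPt n)) : b ∈ projB n ↔
    ∃ x y z : PPt n, x ≠ y ∧ x.1 + y.1 = z.1 ∧ ∀ w, w ∈ b ↔ w = x ∨ w = y ∨ w = z := by
  classical
  unfold projB
  rw [mem_blocks]
  constructor
  · rintro ⟨x, y, h, rfl⟩
    refine ⟨x, y, pτ n x y, h, (pτ_val h).symm, fun w => by simp⟩
  · rintro ⟨x, y, z, h, h2, h3⟩
    have hz : pτ n x y = z := Subtype.ext ((pτ_val h).trans h2)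
    refine ⟨x, y, h, ?_⟩
    ext w
    rw [h3, hz]
    simp

/-- Sanity check: the blocks of the Bose system. -/
theorem mem_boseB {n : ℕ} [NeZero n] {h : ZMod n} (hh : 2 * h = 1)
    (b : Finset (ZMod n × Fin 3)) : b ∈ boseB n h ↔
      (∃ x, b = {(x, 0), (x, 1), (x, 2)}) ∨
      ∃ x y, ∃ i : Fin 3, x ≠ y ∧ b = {(x, i), (y, i), (h * (x + y), i + 1)} := by
  unfold boseB
  constructor
  · intro hb
    obtain ⟨⟨x, i⟩, ⟨y, j⟩, hne, rfl⟩ := mem_blocks.1 hb
    by_cases hij : i = j
    · subst hij
      refine Or.inr ⟨x, y, i, fun e => hne (by rw [e]), ?_⟩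
      rw [bτ_same]
    · by_cases hxy : x = y
      · subst hxy
        left
        refine ⟨x, ?_⟩
        rw [bτ_col hij]
        ext ⟨a, c⟩
        simp only [Finset.mem_insert, Finset.mem_singleton, Prod.mk.injEq]
        have key : ∀ i j c : Fin 3, i ≠ j → ((c = i ∨ c = j ∨ c = -(i + j)) ↔
            (c = 0 ∨ c = 1 ∨ c = 2)) := by decide
        have := key i j c hij
        tauto
      · right
        by_cases hj : j = i + 1
        · subst hj
          rw [bτ_next hxy]
          refine ⟨x, 2 * y - x, i, fun e => hxy (two_inj hh (by linear_combination e)), ?_⟩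
          have e1 : h * (x + (2 * y - x)) = y := by linear_combination y * hh
          rw [e1]
          ext w; simp only [Finset.mem_insert, Finset.mem_singleton]; tauto
        · have := fin3_next i j hij hj
          subst this
          rw [bτ_prev hxy]
          refine ⟨y, 2 * x - y, j, fun e => hxy (two_inj hh (by linear_combination -e)), ?_⟩
          have e1 : h * (y + (2 * x - y)) = x := by linear_combination x * hh
          rw [e1]
          ext w; simp only [Finset.mem_insert, Finset.mem_singleton]; tauto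
  · rintro (⟨x, rfl⟩ | ⟨x, y, i, hxy, rfl⟩)
    · refine mem_blocks.2 ⟨(x, 0), (x, 1), by simp, ?_⟩
      rw [bτ_col (by decide)]
      rfl
    · refine mem_blocks.2 ⟨(x, i), (y, i), by simpa using hxy, ?_⟩
      rw [bτ_same]

/-- (1) For every odd `n` the incidence graph of the Bose triple system of order `3 n` with `b`
blocks has minimum semidefinite rank at most `b + 9`. (2) For every `K` and all large `n` the
incidence graph of the projective triple system of order `2 ^ n - 1` with `b` blocks has minimum
semidefinite rank larger than `b + K`. (3) For every `K` there are two nonisomorphic Steiner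
triple systems of the same order whose incidence graphs have minimum semidefinite ranks which
differ by more than `K`. -/
theorem result :
    (∀ (n : ℕ) [NeZero n] (h : ZMod n), 2 * h = 1 →
      IsSTS (boseB n h) ∧ Fintype.card (ZMod n × Fin 3) = 3 * n ∧
        msr (incGraph (boseB n h)) ≤ (boseB n h).card + 9) ∧
    (∀ K : ℕ, ∃ n₀, ∀ n ≥ n₀, IsSTS (projB n) ∧ Fintype.card (PPt n) = 2 ^ n - 1 ∧
      (projB n).card + K < msr (incGraph (projB n))) ∧
    ∀ K : ℕ, ∃ (X Y : Type) (_ : Fintype X) (_ : Fintype Y) (B : Finset (Finset X))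
      (C : Finset (Finset Y)), IsSTS B ∧ IsSTS C ∧ Fintype.card X = Fintype.card Y ∧
        ¬ Iso B C ∧ msr (incGraph B) + K < msr (incGraph C) := by
  refine ⟨fun n _ h hh => ⟨boseB_isSTS n hh, ?_, msr_bose n hh⟩, fun K => ?_, gap⟩
  · rw [Fintype.card_prod, ZMod.card, Fintype.card_fin, mul_comm]
  · obtain ⟨N, hN⟩ := lt_msr K
    obtain ⟨n₀, hn₀⟩ := projB_mono N
    exact ⟨n₀, fun n hn => ⟨projB_isSTS n, card_PPt n, hN _ _ (projB_isSTS n) (hn₀ n hn)⟩⟩

end Pool.Agent.Results.MP_2ade00_co.BoseVersusProjective
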